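import Pool.Agent.H752.SV.Stubs

/-! Digits of the codes. -/

namespace Pool.Agent.H752.SV

open Pool.Agent.NPC Pool.Agent.H620R2.Gauge

private lemma dg_sum (q : ℕ) (hq : 2 ≤ q) (N : ℕ) : ∀ (a : ℕ → ℕ), (∀ i, a i < q) → ∀ j, j < N →
    (∑ i ∈ Finset.range N, a i * q ^ i) / q ^ j % q = a j := by
  induction N with
  | zero =>
    intro a _ j hj
    omega
  | succ N ih =>
    intro a ha j hj
    rw [Finset.sum_range_succ']
    have h1 : ∑ i ∈ Finset.range N, a (i + 1) * q ^ (i + 1) =
        q * ∑ i ∈ Finset.range N, a (i + 1) * q ^ i := by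
      rw [Finset.mul_sum]
      refine Finset.sum_congr rfl fun i _ => ?_
      ring
    rw [h1, pow_zero, mul_one]
    cases j with
    | zero =>
      rw [pow_zero, Nat.div_one, Nat.mul_add_mod, Nat.mod_eq_of_lt (ha 0)]
    | succ j =>
      rw [pow_succ', ← Nat.div_div_eq_div_mul, Nat.mul_add_div (by omega),
        Nat.div_eq_of_lt (ha 0), add_zero]
      exact ih (fun i => a (i + 1)) (fun i => ha _) j (by omega)

private lemma sum_dg (q n : ℕ) (N : ℕ) :
    ∑ i ∈ Finset.range N, dg q n i * q ^ i = n % q ^ N := by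
  induction N with
  | zero => simp [Nat.mod_one]
  | succ N ih =>
    rw [Finset.sum_range_succ, ih, pow_succ, Nat.mod_mul]
    unfold dg
    ring

theorem t_dg : St_dg := by
  intro F _ _ φ h0
  have hq2 : 2 ≤ Fintype.card F := Fintype.one_lt_card
  constructor
  · intro v i
    obtain ⟨N, hN⟩ := Finset.exists_nat_subset_range v.support
    have hs : v.support ⊆ Finset.range (max N (i + 1)) := by
      intro j hj
      have := Finset.mem_range.mp (hN hj)
      exact Finset.mem_range.mpr (lt_of_lt_of_le this (le_max_left _ _))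
    have hc : code φ v =
        ∑ j ∈ Finset.range (max N (i + 1)), (φ (v j) : ℕ) * Fintype.card F ^ j := by
      unfold code
      rw [Finsupp.sum_of_support_subset v hs]
      intro j _
      rw [h0, zero_mul]
    unfold dg
    rw [hc]
    exact dg_sum _ hq2 _ (fun j => (φ (v j) : ℕ)) (fun j => (φ (v j)).2) i
      (lt_of_lt_of_le (Nat.lt_succ_self i) (le_max_right _ _))
  · intro n
    have hlt : ∀ i, dg (Fintype.card F) n i < Fintype.card F := fun i =>
      Nat.mod_lt _ (by omega)
    have hsupp : ∀ i, φ.symm ⟨dg (Fintype.card F) n i, hlt i⟩ ≠ 0 → i ∈ Finset.range n := by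
      intro i hi
      rw [Finset.mem_range]
      by_contra hni
      apply hi
      rw [Equiv.symm_apply_eq]
      apply Fin.ext
      rw [h0]
      show n / Fintype.card F ^ i % Fintype.card F = 0
      have h2 : n < Fintype.card F ^ i :=
        lt_of_le_of_lt (not_lt.mp hni) (Nat.lt_pow_self hq2)
      rw [Nat.div_eq_of_lt h2, Nat.zero_mod]
    refine ⟨Finsupp.onFinset (Finset.range n)
      (fun i => φ.symm ⟨dg (Fintype.card F) n i, hlt i⟩) hsupp, ?_⟩
    unfold code
    rw [Finsupp.sum_of_support_subset _ (Finsupp.support_onFinset_subset)]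
    · have h3 : ∑ i ∈ Finset.range n, dg (Fintype.card F) n i * Fintype.card F ^ i =
          n % Fintype.card F ^ n := sum_dg _ _ _
      rw [Nat.mod_eq_of_lt (Nat.lt_pow_self hq2)] at h3
      calc _ = ∑ i ∈ Finset.range n, dg (Fintype.card F) n i * Fintype.card F ^ i := by
            refine Finset.sum_congr rfl fun i _ => ?_
            rw [Finsupp.onFinset_apply, Equiv.apply_symm_apply]
        _ = n := h3
    · intro i _
      rw [h0, zero_mul]

end Pool.Agent.H752.SV
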